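import Pool.Agent.H317Z.StairMain

set_option autoImplicit false

open Pool.Agent.H317Z.Stair MeasureTheory Filter

/-- For the walk on stairs whose forward proposal has probability `1/2 + 4/a t` at every state,
some nondecreasing sequence `a t ≥ 8` tending to infinity makes the second coordinate tend to
infinity almost surely. -/
theorem Pool.Agent.Results.MP_1da119_pr.AlmostSureEscape.result :
    ∃ a : ℕ → ℝ, (∀ t, 8 ≤ a t) ∧ Monotone a ∧ Tendsto a atTop atTop ∧
      ∀ᵐ ω ∂noise, Tendsto (fun t => (walk (fun t _ => 1 / 2 + 4 / a t) ω t).2) atTop atTop :=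
  diverges
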