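import Pool.Agent.H317Z.StairLiteral

set_option autoImplicit false

open Pool.Agent.H317Z.Stair MeasureTheory Filter

/-- For the walk whose forward proposal has probability `1/2 + 4/a t` at the states `(j, j)` and
`1/2 - 4/a t` at the states `(j + 1, j)`, escape to infinity has probability zero. -/
theorem Pool.Agent.Results.MP_1da119_pr.LiteralKernel.result (a : ℕ → ℝ) (ha : ∀ t, 8 ≤ a t) :
    noise {ω | Tendsto (fun t => (walk (fun t x => if x.1 = x.2 then 1 / 2 + 4 / a t
      else 1 / 2 - 4 / a t) ω t).2) atTop atTop} = 0 :=
  literal a ha
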